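import Pool.Agent.Helper87.TC.Lib

set_option autoImplicit false

namespace Pool.Agent.Helper87.TC

open MvPolynomial Pool.Agent.Helper48.VMRT Pool.Agent.Helper87.VM

theorem resd_list {N : ℕ} {S : Set (Fin (N + 1) → ℂ)} (hS : ZClosed S)
    (hc : ∀ a : ℂ, ∀ x ∈ S, a • x ∈ S) (hne : S.Nonempty) :
    ∃ (D N' : ℕ) (E : Fin (N' + 1) → MvPolynomial (Fin (N + 1)) ℂ), (∀ i, HomE D (E i)) ∧
      ∀ x, x ∈ S ↔ ev E x = 0 := by
  classical
  obtain ⟨F, hF⟩ := (isNoetherianRing_iff_ideal_fg (MvPolynomial (Fin (N + 1)) ℂ)).1 inferInstance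
    (vanishingIdeal ℂ S)
  obtain ⟨M, hM⟩ : ∃ M, M = F.sup totalDegree + 1 := ⟨_, rfl⟩
  obtain ⟨J, hJ⟩ : ∃ J : Finset (MvPolynomial (Fin (N + 1)) ℂ × ℕ), J = F ×ˢ Finset.range M :=
    ⟨_, rfl⟩
  obtain ⟨h, hh⟩ : ∃ h : MvPolynomial (Fin (N + 1)) ℂ × ℕ → MvPolynomial (Fin (N + 1)) ℂ,
    h = fun q => (homogeneousComponent (q.2 + 1) q.1) ^ (M.factorial / (q.2 + 1)) := ⟨_, rfl⟩
  obtain ⟨L, hL⟩ : ∃ L : List (MvPolynomial (Fin (N + 1)) ℂ), L = J.toList.map h := ⟨_, rfl⟩
  have hmemL : ∀ p, p ∈ L ↔ ∃ q ∈ J, h q = p := by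
    intro p
    rw [hL, List.mem_map]
    simp only [Finset.mem_toList]
  have hdvd : ∀ q ∈ J, q.2 + 1 ∣ M.factorial := by
    intro q hq
    rw [hJ, Finset.mem_product, Finset.mem_range] at hq
    exact Nat.dvd_factorial (Nat.succ_pos _) hq.2
  have hexp : ∀ q ∈ J, M.factorial / (q.2 + 1) ≠ 0 := by
    intro q hq
    have h1 := Nat.div_pos (Nat.le_of_dvd (Nat.factorial_pos M) (hdvd q hq)) (Nat.succ_pos q.2)
    exact h1.ne'
  have hFS : ∀ p ∈ F, p ∈ vanishingIdeal ℂ S := by
    intro p hp
    rw [← hF]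
    exact Ideal.subset_span hp
  refine ⟨M.factorial, L.length, fun i => L.getD i 0, ?_, ?_⟩
  · intro i
    by_cases hi : (i : ℕ) < L.length
    · have h1 : L.getD i 0 ∈ L := by
        rw [List.getD_eq_getElem _ _ hi]
        exact List.getElem_mem hi
      obtain ⟨q, hq, hqp⟩ := (hmemL _).1 h1
      simp only
      rw [← hqp, hh]
      have h2 := (homE_of_isHomogeneous (homogeneousComponent_isHomogeneous (q.2 + 1) q.1)).pow
        (M.factorial / (q.2 + 1))
      rw [Nat.mul_div_cancel' (hdvd q hq)] at h2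
      exact h2
    · have h1 : L.getD i 0 = 0 := List.getD_eq_default _ _ (not_lt.1 hi)
      simp only
      rw [h1]
      exact homE_zero _
  · intro x
    constructor
    · intro hx
      funext i
      simp only [ev, Pi.zero_apply]
      by_cases hi : (i : ℕ) < L.length
      · have h1 : L.getD i 0 ∈ L := by
          rw [List.getD_eq_getElem _ _ hi]
          exact List.getElem_mem hi
        obtain ⟨q, hq, hqp⟩ := (hmemL _).1 h1
        rw [← hqp, hh]
        simp only [map_pow]
        have h2 : q.1 ∈ F := by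
          rw [hJ, Finset.mem_product] at hq
          exact hq.1
        rw [mem_vI.1 (homogeneousComponent_mem_vI hc (hFS _ h2) (q.2 + 1)) x hx]
        exact zero_pow (hexp q hq)
      · have h1 : L.getD i 0 = 0 := List.getD_eq_default _ _ (not_lt.1 hi)
        rw [h1, map_zero]
    · intro hx
      have hLx : ∀ p ∈ L, eval x p = 0 := by
        intro p hp
        obtain ⟨i, hi, hip⟩ := List.getElem_of_mem hp
        have h1 := congrFun hx (⟨i, by omega⟩ : Fin (L.length + 1))
        simp only [ev, Pi.zero_apply] at h1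
        rw [List.getD_eq_getElem _ _ hi, hip] at h1
        exact h1
      have hFx : ∀ p ∈ F, eval x p = 0 := by
        intro p hp
        rw [← sum_homogeneousComponent p, map_sum]
        refine Finset.sum_eq_zero fun k hk => ?_
        rw [Finset.mem_range] at hk
        rcases k with _ | k
        · obtain ⟨y, hy⟩ := hne
          have h1 := mem_vI.1 (homogeneousComponent_mem_vI hc (hFS _ hp) 0) y hy
          rw [homogeneousComponent_zero, eval_C] at h1 ⊢
          exact h1
        · have h2 : totalDegree p ≤ F.sup totalDegree := Finset.le_sup (f := totalDegree) hp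
          have hq : (p, k) ∈ J := by
            rw [hJ, Finset.mem_product, Finset.mem_range]
            exact ⟨hp, by simp only; omega⟩
          have h3 := hLx (h (p, k)) ((hmemL _).2 ⟨_, hq, rfl⟩)
          rw [hh] at h3
          simp only [map_pow] at h3
          exact pow_eq_zero_iff (hexp _ hq) |>.1 h3
      refine zclosed_iff.1 hS x fun p hp => ?_
      rw [← hF] at hp
      have h4 : Ideal.span (F : Set (MvPolynomial (Fin (N + 1)) ℂ)) ≤ vanishingIdeal ℂ {x} := by
        rw [Ideal.span_le]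
        intro p hp
        refine mem_vI.2 fun y hy => ?_
        rw [Set.mem_singleton_iff] at hy
        rw [hy]
        exact hFx p hp
      exact mem_vI.1 (h4 hp) x rfl

theorem st_RESD (hCOMPE : ST_COMPE) (hRES : Pool.Agent.Helper87.VM.ST_RES) : ST_RESD := by
  intro N d S hS hc hne
  constructor
  · obtain ⟨D, N', E, hE, hx⟩ := resd_list hS hc hne
    obtain ⟨Q, hQ⟩ := hCOMPE (Fin (N + 1)) N' D d E hE
    have h1 := zclosed_preimage (hRES N' (D * d)) Q
    have h2 : {c : Coef N d | ∃ s t : ℂ, (s, t) ≠ (0, 0) ∧ pt c s t ∈ S} =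
        {x : Coef N d | ev Q x ∈ {c : Coef N' (D * d) | ∃ s t : ℂ, (s, t) ≠ (0, 0) ∧
          pt c s t = 0}} := by
      ext c
      constructor
      · rintro ⟨s, t, hst, hm⟩
        refine ⟨s, t, hst, ?_⟩
        have h3 := hQ c s t
        exact h3.trans ((hx _).1 hm)
      · rintro ⟨s, t, hst, hm⟩
        refine ⟨s, t, hst, (hx _).2 ?_⟩
        have h3 := hQ c s t
        exact h3.symm.trans hm
    rw [h2]
    exact h1
  · have h1 : ∀ q : ℂ × ℂ, ZClosed {c : Coef N d | pt c q.1 q.2 ∈ S} := by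
      intro q
      have h2 := zclosed_preimage (κ := Fin (N + 1) × Fin (d + 1)) hS
        (fun i => ∑ j : Fin (d + 1), X (i, j) * C (q.1 ^ (d - (j : ℕ))) * C (q.2 ^ (j : ℕ)))
      have h3 : ∀ c : Coef N d, ev (fun i => ∑ j : Fin (d + 1),
          (X (i, j) * C (q.1 ^ (d - (j : ℕ))) * C (q.2 ^ (j : ℕ)) :
          MvPolynomial (Fin (N + 1) × Fin (d + 1)) ℂ)) c = pt c q.1 q.2 := by
        intro c
        funext i
        simp [ev, pt]
      simp only [h3] at h2
      exact h2
    have h4 := zclosed_iInter h1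
    have h5 : {c : Coef N d | ∀ s t : ℂ, pt c s t ∈ S} =
        ⋂ q : ℂ × ℂ, {c : Coef N d | pt c q.1 q.2 ∈ S} := by
      ext c
      rw [Set.mem_iInter]
      constructor
      · intro h q
        exact h q.1 q.2
      · intro h s t
        exact h (s, t)
    rw [h5]
    exact h4


end Pool.Agent.Helper87.TC
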